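import Mathlib

/-!
# A bottleneck criterion for quasi-trees
-/

namespace Q281.TL

open SimpleGraph

universe u

/-- A connected graph (with its path metric) is quasi-isometric to a tree. -/
def QITree {V : Type u} (G : SimpleGraph V) : Prop :=
  ∃ (T : Type u) (H : SimpleGraph T), H.IsTree ∧ ∃ (f : V → T) (C : ℕ),
    (∀ x y, H.dist (f x) (f y) ≤ C * G.dist x y + C) ∧
    (∀ x y, G.dist x y ≤ C * H.dist (f x) (f y) + C) ∧
    ∀ t, ∃ x, H.dist t (f x) ≤ C

section

variable {V : Type u} (G : SimpleGraph V) (o : V)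

/-- same level and connected outside the ball -/
def Rel (x y : V) : Prop :=
  G.dist o x = G.dist o y ∧ ∃ p : G.Walk x y, ∀ z ∈ p.support, G.dist o x ≤ G.dist o z

variable {G o}

lemma rel_refl (x : V) : Rel G o x x :=
  ⟨rfl, Walk.nil, by simp⟩

lemma rel_symm {x y : V} (h : Rel G o x y) : Rel G o y x := by
  obtain ⟨h1, p, hp⟩ := h
  refine ⟨h1.symm, p.reverse, fun z hz => ?_⟩
  rw [Walk.support_reverse, List.mem_reverse] at hz
  rw [← h1]; exact hp z hz

lemma rel_trans {x y z : V} (h : Rel G o x y) (h' : Rel G o y z) : Rel G o x z := by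
  obtain ⟨h1, p, hp⟩ := h
  obtain ⟨h2, q, hq⟩ := h'
  refine ⟨h1.trans h2, p.append q, fun t ht => ?_⟩
  rw [Walk.mem_support_append_iff] at ht
  rcases ht with ht | ht
  · exact hp t ht
  · rw [h1]; exact hq t ht

variable (G o)

/-- the setoid -/
def std : Setoid V := ⟨Rel G o, rel_refl, rel_symm, rel_trans⟩

/-- the vertices of the tree -/
abbrev TV : Type u := Quotient (std G o)

/-- the tree -/
def TG : SimpleGraph (TV G o) where
  Adj a b := a ≠ b ∧ ∃ x y : V, Quotient.mk (std G o) x = a ∧ Quotient.mk (std G o) y = b ∧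
    G.Adj x y
  symm := ⟨by
    rintro a b ⟨h, x, y, hx, hy, hxy⟩
    exact ⟨h.symm, y, x, hy, hx, hxy.symm⟩⟩
  loopless := ⟨fun a h => h.1 rfl⟩

/-- the quotient map -/
def qm (x : V) : TV G o := Quotient.mk (std G o) x

/-- level in the tree -/
noncomputable def lev : TV G o → ℕ := Quotient.lift (fun x => G.dist o x) (fun _ _ h => h.1)

variable {G o}

lemma lev_qm (x : V) : lev G o (qm G o x) = G.dist o x := rfl

lemma qm_eq {x y : V} : qm G o x = qm G o y ↔ Rel G o x y := Quotient.eq (r := std G o)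

lemma qm_surj (a : TV G o) : ∃ x, qm G o x = a := Quotient.exists_rep a

lemma qm_eq_of_adj {x y : V} (h : G.Adj x y) (hl : G.dist o x = G.dist o y) :
    qm G o x = qm G o y := by
  rw [qm_eq]
  refine ⟨hl, h.toWalk, fun z hz => ?_⟩
  simp at hz
  rcases hz with rfl | rfl
  · exact le_rfl
  · exact hl.le

lemma adj_lev_ne {a b : TV G o} (h : (TG G o).Adj a b) : lev G o a ≠ lev G o b := by
  obtain ⟨hne, x, y, rfl, rfl, hxy⟩ := h
  intro h
  exact hne (qm_eq_of_adj hxy h)

lemma dist_adj (hG : G.Connected) {x y : V} (h : G.Adj x y) :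
    G.dist o y ≤ G.dist o x + 1 := by
  have h1 := hG.dist_triangle (u := o) (v := x) (w := y)
  have h2 : G.dist x y = 1 := dist_eq_one_iff_adj.2 h
  omega

/-- the parent is unique -/
lemma parent_unique (hG : G.Connected) {a b c : TV G o} (h1 : (TG G o).Adj a b)
    (h2 : (TG G o).Adj a c)
    (hb : lev G o b ≤ lev G o a) (hc : lev G o c ≤ lev G o a) : b = c := by
  have hb' := adj_lev_ne h1
  have hc' := adj_lev_ne h2
  obtain ⟨_, x, y, hx, hy, hxy⟩ := h1
  obtain ⟨_, x', z, hx', hz, hxz⟩ := h2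
  have hxx : Rel G o x x' := by
    rw [← qm_eq]; exact hx.trans hx'.symm
  subst hx
  subst hy
  subst hz
  have e1 : lev G o (qm G o x) = G.dist o x := rfl
  have e2 : lev G o (qm G o y) = G.dist o y := rfl
  have e3 : lev G o (qm G o z) = G.dist o z := rfl
  change lev G o (qm G o y) ≤ lev G o (qm G o x) at hb
  change lev G o (qm G o z) ≤ lev G o (qm G o x) at hc
  change lev G o (qm G o x) ≠ lev G o (qm G o y) at hb'
  change lev G o (qm G o x) ≠ lev G o (qm G o z) at hc'
  change qm G o y = qm G o z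
  rw [e1, e2] at hb hb'
  rw [e1, e3] at hc hc'
  obtain ⟨hl, p, hp⟩ := hxx
  have a1 := dist_adj (o := o) hG hxy.symm
  have a2 := dist_adj (o := o) hG hxz.symm
  rw [qm_eq]
  refine ⟨by omega, (Walk.cons hxy.symm p).append hxz.toWalk, fun t ht => ?_⟩
  rw [Walk.mem_support_append_iff] at ht
  rcases ht with ht | ht
  · rw [Walk.support_cons, List.mem_cons] at ht
    rcases ht with rfl | ht
    · exact le_rfl
    · have := hp t ht; omega
  · simp at ht
    rcases ht with rfl | rfl
    · omega
    · omega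

lemma acyclic (hG : G.Connected) : (TG G o).IsAcyclic := by
  classical
  intro v c hc
  obtain ⟨u, hu, hmax⟩ : ∃ u ∈ c.support.toFinset, ∀ w ∈ c.support.toFinset,
      lev G o w ≤ lev G o u := by
    apply Finset.exists_max_image
    exact ⟨v, by simp⟩
  rw [List.mem_toFinset] at hu
  have hc' : (c.rotate u hu).IsCycle := hc.rotate hu
  have hsup : ∀ w ∈ (c.rotate u hu).support, lev G o w ≤ lev G o u := by
    intro w hw
    apply hmax
    rw [List.mem_toFinset]
    exact (Walk.mem_support_rotate_iff ..).1 hw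
  have hnn : ¬ (c.rotate u hu).Nil := hc'.not_nil
  have h1 : (TG G o).Adj u (c.rotate u hu).snd := (c.rotate u hu).adj_snd hnn
  have h2 : (TG G o).Adj u (c.rotate u hu).penultimate := ((c.rotate u hu).adj_penultimate hnn).symm
  exact hc'.snd_ne_penultimate (parent_unique hG h1 h2 (hsup _ (Walk.getVert_mem_support ..))
    (hsup _ (Walk.getVert_mem_support ..)))

lemma lip {x y : V} (p : G.Walk x y) :
    ∃ q : (TG G o).Walk (qm G o x) (qm G o y), q.length ≤ p.length := by
  induction p with
  | nil => exact ⟨Walk.nil, le_rfl⟩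
  | @cons x y z h p ih =>
    obtain ⟨q, hq⟩ := ih
    by_cases he : qm G o x = qm G o y
    · refine ⟨q.copy he.symm rfl, ?_⟩
      simp; omega
    · refine ⟨Walk.cons (v := qm G o y) ⟨he, x, y, rfl, rfl, h⟩ q, ?_⟩
      simp; omega

/-- **Bottleneck criterion.** -/
theorem qiTree_of_bottleneck (hG : G.Connected) (D : ℕ)
    (hD : ∀ x y, Rel G o x y → G.dist x y ≤ D) : QITree G := by
  have hconn : (TG G o).Connected := by
    refine (connected_iff _).2 ⟨fun a b => ?_, ⟨qm G o o⟩⟩
    obtain ⟨x, rfl⟩ := qm_surj a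
    obtain ⟨y, rfl⟩ := qm_surj b
    obtain ⟨p⟩ := hG.preconnected x y
    obtain ⟨q, _⟩ := lip (o := o) p
    exact ⟨q⟩
  refine ⟨TV G o, TG G o, ⟨hconn, acyclic hG⟩, qm G o, D + 1, ?_, ?_, ?_⟩
  · intro x y
    obtain ⟨p, hp⟩ := hG.exists_walk_length_eq_dist x y
    obtain ⟨q, hq⟩ := lip (o := o) p
    have h1 := dist_le q
    nlinarith [Nat.zero_le (G.dist x y), Nat.zero_le D, Nat.zero_le (D * G.dist x y)]
  · have key : ∀ (a b : TV G o) (p : (TG G o).Walk a b) (x y : V), qm G o x = a →
        qm G o y = b → G.dist x y ≤ (D + 1) * p.length + D := by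
      intro a b p
      induction p with
      | nil =>
        intro x y hx hy
        have := hD x y (qm_eq.1 (hx.trans hy.symm))
        simp; omega
      | @cons a b c h p ih =>
        intro x y hx hy
        obtain ⟨_, x', y', hx', hy', hxy⟩ := h
        have h1 := ih y' y hy' hy
        have h2 : G.dist x x' ≤ D := hD x x' (qm_eq.1 (hx.trans hx'.symm))
        have h3 : G.dist x' y' = 1 := dist_eq_one_iff_adj.2 hxy
        have h4 := hG.dist_triangle (u := x) (v := x') (w := y)
        have h5 := hG.dist_triangle (u := x') (v := y') (w := y)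
        rw [Walk.length_cons]
        nlinarith
    intro x y
    obtain ⟨p, hp⟩ := hconn.exists_walk_length_eq_dist (qm G o x) (qm G o y)
    have := key _ _ p x y rfl rfl
    rw [hp] at this
    omega
  · intro t
    obtain ⟨x, rfl⟩ := qm_surj t
    exact ⟨x, by simp⟩

end

end Q281.TL
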