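import Mathlib

/-!
# A splitting property of context-free languages
-/

namespace Q281.TL

open List

variable {T : Type*}

/-- `Y g s v`: the string of symbols `s` derives the word `v` (tree-structured derivation). -/
inductive Y (g : ContextFreeGrammar T) : List (Symbol T g.NT) → List T → Prop
  | nil : Y g [] []
  | term (t : T) (s : List (Symbol T g.NT)) (v : List T) : Y g s v →
      Y g (Symbol.terminal t :: s) (t :: v)
  | nonterm (r : ContextFreeRule T g.NT) (hr : r ∈ g.rules) (s : List (Symbol T g.NT))
      (v v' : List T) : Y g r.output v → Y g s v' →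
      Y g (Symbol.nonterminal r.input :: s) (v ++ v')

variable {g : ContextFreeGrammar T}

lemma Y_append {a b : List (Symbol T g.NT)} {v w : List T} (h : Y g a v) (h' : Y g b w) :
    Y g (a ++ b) (v ++ w) := by
  induction h with
  | nil => simpa using h'
  | term t s v _ ih => exact Y.term t _ _ ih
  | nonterm r hr s v v' h1 h2 ih1 ih2 =>
    rw [append_assoc]
    exact Y.nonterm r hr _ _ _ h1 ih2

lemma Y_split {a b : List (Symbol T g.NT)} {v : List T} (h : Y g (a ++ b) v) :
    ∃ v₁ v₂, v = v₁ ++ v₂ ∧ Y g a v₁ ∧ Y g b v₂ := by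
  induction a generalizing v with
  | nil => exact ⟨[], v, rfl, Y.nil, h⟩
  | cons x a ih =>
    rw [cons_append] at h
    cases h with
    | term t s v h =>
      obtain ⟨v₁, v₂, rfl, h1, h2⟩ := ih h
      exact ⟨t :: v₁, v₂, rfl, Y.term t _ _ h1, h2⟩
    | nonterm r hr s v v' h1 h2 =>
      obtain ⟨v₁, v₂, rfl, h3, h4⟩ := ih h2
      exact ⟨v ++ v₁, v₂, by simp, Y.nonterm r hr _ _ _ h1 h3, h4⟩

lemma Y_terminal (v : List T) : Y g (v.map Symbol.terminal) v := by
  induction v with
  | nil => exact Y.nil
  | cons t v ih => exact Y.term t _ _ ih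

lemma Y_single {r : ContextFreeRule T g.NT} (hr : r ∈ g.rules) {v : List T}
    (h : Y g r.output v) : Y g [Symbol.nonterminal r.input] v := by
  have := Y.nonterm r hr [] v [] h Y.nil
  rwa [append_nil] at this

lemma Y_of_derives {s t : List (Symbol T g.NT)} (h : g.Derives s t) {v : List T}
    (ht : t = v.map Symbol.terminal) : Y g s v := by
  induction h using Relation.ReflTransGen.head_induction_on with
  | refl => rw [ht]; exact Y_terminal v
  | head h _ ih =>
    obtain ⟨r, hr, hrw⟩ := h
    obtain ⟨p, q, rfl, rfl⟩ := hrw.exists_parts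
    obtain ⟨v₁, v₂, rfl, h1, h2⟩ := Y_split ih
    obtain ⟨v₃, v₄, rfl, h3, h4⟩ := Y_split h1
    exact Y_append (Y_append h3 (Y_single hr h4)) h2

lemma derives_of_Y {s : List (Symbol T g.NT)} {v : List T} (h : Y g s v) :
    g.Derives s (v.map Symbol.terminal) := by
  induction h with
  | nil => exact Relation.ReflTransGen.refl
  | term t s v _ ih => exact ih.append_left [Symbol.terminal t]
  | nonterm r hr s v v' h1 h2 ih1 ih2 =>
    have e1 : g.Derives (Symbol.nonterminal r.input :: s) (r.output ++ s) :=
      Relation.ReflTransGen.single ⟨r, hr, ContextFreeRule.Rewrites.head s⟩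
    have e2 : g.Derives (r.output ++ s) (v.map Symbol.terminal ++ s) := ih1.append_right s
    have e3 : g.Derives (v.map Symbol.terminal ++ s)
        (v.map Symbol.terminal ++ v'.map Symbol.terminal) := ih2.append_left _
    rw [map_append]
    exact (e1.trans e2).trans e3

lemma mem_language_iff_Y {v : List T} :
    v ∈ g.language ↔ Y g [Symbol.nonterminal g.initial] v := by
  rw [ContextFreeGrammar.mem_language_iff]
  exact ⟨fun h => Y_of_derives h rfl, fun h => derives_of_Y h⟩

open Classical in
/-- length of a chosen word derived from a symbol -/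
noncomputable def wl (g : ContextFreeGrammar T) (x : Symbol T g.NT) : ℕ :=
  if h : ∃ v, Y g [x] v then (Classical.choose h).length else 0

/-- length of the chosen words -/
noncomputable def wlen (g : ContextFreeGrammar T) (s : List (Symbol T g.NT)) : ℕ :=
  (s.map (wl g)).sum

lemma exists_short {s : List (Symbol T g.NT)} : ∀ {v : List T}, Y g s v →
    ∃ w, Y g s w ∧ w.length ≤ wlen g s := by
  induction s with
  | nil => intro v _; exact ⟨[], Y.nil, by simp⟩
  | cons x s ih =>
    intro v h
    have h' : Y g ([x] ++ s) v := h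
    obtain ⟨v₁, v₂, rfl, h1, h2⟩ := Y_split h'
    obtain ⟨w, hw, hl⟩ := ih h2
    have hex : ∃ v, Y g [x] v := ⟨v₁, h1⟩
    refine ⟨Classical.choose hex ++ w, Y_append (Classical.choose_spec hex) hw, ?_⟩
    rw [length_append, wlen, map_cons, sum_cons, wl, dif_pos hex]
    exact Nat.add_le_add_left hl _

/-- the constant -/
noncomputable def KK (g : ContextFreeGrammar T) : ℕ := g.rules.sup (fun r => wlen g r.output)

lemma wlen_le_KK {r : ContextFreeRule T g.NT} (hr : r ∈ g.rules) : wlen g r.output ≤ KK g :=
  Finset.le_sup (f := fun r => wlen g r.output) hr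

/-- The found triple of positions. -/
def Found (L : Language T) (K : ℕ) (u : List T) (i j : ℕ) : Prop :=
  ∃ p q r : ℕ, p ≤ i ∧ i < q ∧ q < j ∧ j ≤ r ∧ r ≤ u.length ∧
    (∃ w : List T, w.length ≤ K ∧ u.take p ++ (w ++ u.drop q) ∈ L) ∧
    (∃ w : List T, w.length ≤ K ∧ u.take q ++ (w ++ u.drop r) ∈ L)

/-- A breakpoint of the derivation strictly between the positions. -/
def Brk (g : ContextFreeGrammar T) (s : List (Symbol T g.NT)) (v : List T) (n i j : ℕ) : Prop :=
  ∃ (s₁ s₂ : List (Symbol T g.NT)) (v₁ v₂ : List T), s = s₁ ++ s₂ ∧ v = v₁ ++ v₂ ∧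
    Y g s₁ v₁ ∧ Y g s₂ v₂ ∧ i < n + v₁.length ∧ n + v₁.length < j

lemma desc {s : List (Symbol T g.NT)} {v : List T} (h : Y g s v) :
    ∀ (α β : List T), (∀ x, Y g s x → α ++ (x ++ β) ∈ g.language) →
      ∀ i j, α.length ≤ i → i + 2 ≤ j → j ≤ α.length + v.length →
      Found g.language (KK g) (α ++ (v ++ β)) i j ∨ Brk g s v α.length i j := by
  induction h with
  | nil =>
    intro α β _ i j h1 h2 h3
    simp at h3
    omega
  | term t s v h ih =>
    intro α β hc i j h1 h2 h3
    by_cases hi : α.length + 1 ≤ i
    · have := ih (α ++ [t]) β (fun x hx => by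
        have := hc (t :: x) (Y.term t _ _ hx)
        simpa using this) i j (by simpa using hi) h2 (by simp at h3 ⊢; omega)
      rcases this with h4 | ⟨s₁, s₂, v₁, v₂, e1, e2, y1, y2, b1, b2⟩
      · left
        simpa using h4
      · right
        refine ⟨Symbol.terminal t :: s₁, s₂, t :: v₁, v₂, by simp [e1], by simp [e2],
          Y.term t _ _ y1, y2, ?_, ?_⟩
        · simp at b1 ⊢; omega
        · simp at b2 ⊢; omega
    · right
      exact ⟨[Symbol.terminal t], s, [t], v, rfl, rfl, Y.term t _ _ Y.nil, h,
        by simp; omega, by simp; omega⟩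
  | nonterm r hr s v v' h1 h2 ih1 ih2 =>
    intro α β hc i j hi hij hj
    by_cases hj' : j ≤ α.length + v.length
    · left
      have hc1 : ∀ x, Y g r.output x → α ++ (x ++ (v' ++ β)) ∈ g.language := by
        intro x hx
        have := hc (x ++ v') (Y.nonterm r hr _ _ _ hx h2)
        simpa using this
      rcases ih1 α (v' ++ β) hc1 i j hi hij hj' with h4 |
        ⟨s₁, s₂, v₁, v₂, e1, e2, y1, y2, b1, b2⟩
      · simpa using h4
      · obtain ⟨w₁, hw₁, hl₁⟩ := exists_short y1
        obtain ⟨w₂, hw₂, hl₂⟩ := exists_short y2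
        have hK : wlen g r.output ≤ KK g := wlen_le_KK hr
        have hsum : wlen g r.output = wlen g s₁ + wlen g s₂ := by
          rw [e1]; simp [wlen]
        refine ⟨α.length, α.length + v₁.length, α.length + v.length, hi, b1, b2, hj', ?_,
          ⟨w₁, by omega, ?_⟩, ⟨w₂, by omega, ?_⟩⟩
        · simp
        · have hd : (α ++ (v ++ v' ++ β)).drop (α.length + v₁.length) = v₂ ++ (v' ++ β) := by
            rw [e2]
            simp
          have ht : (α ++ (v ++ v' ++ β)).take α.length = α := by simp
          rw [hd, ht]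
          have := hc1 (w₁ ++ v₂) (by rw [e1]; exact Y_append hw₁ y2)
          simpa using this
        · have hd : (α ++ (v ++ v' ++ β)).drop (α.length + v.length) = v' ++ β := by
            simp
          have ht : (α ++ (v ++ v' ++ β)).take (α.length + v₁.length) = α ++ v₁ := by
            rw [e2]
            have : α ++ (v₁ ++ v₂ ++ v' ++ β) = (α ++ v₁) ++ (v₂ ++ v' ++ β) := by simp
            rw [this, ← length_append, take_left']
            rfl
          rw [hd, ht]
          have := hc1 (v₁ ++ w₂) (by rw [e1]; exact Y_append y1 hw₂)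
          simpa using this
    · by_cases hi' : α.length + v.length ≤ i
      · have hc2 : ∀ x, Y g s x → (α ++ v) ++ (x ++ β) ∈ g.language := by
          intro x hx
          have := hc (v ++ x) (Y.nonterm r hr _ _ _ h1 hx)
          simpa using this
        rcases ih2 (α ++ v) β hc2 i j (by simpa using hi') hij (by simp at hj ⊢; omega) with h4 |
          ⟨s₁, s₂, v₁, v₂, e1, e2, y1, y2, b1, b2⟩
        · left; simpa using h4
        · right
          refine ⟨Symbol.nonterminal r.input :: s₁, s₂, v ++ v₁, v₂, by simp [e1],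
            by simp [e2], Y.nonterm r hr _ _ _ h1 y1, y2, ?_, ?_⟩
          · simp at b1 ⊢; omega
          · simp at b2 ⊢; omega
      · right
        refine ⟨[Symbol.nonterminal r.input], s, v, v', rfl, rfl, Y_single hr h1, h2,
          by omega, by omega⟩

/-- **Splitting property of context-free languages.** -/
theorem exists_found {L : Language T} (hL : L.IsContextFree) :
    ∃ K : ℕ, ∀ u ∈ L, ∀ i j, i + 2 ≤ j → j ≤ u.length → Found L K u i j := by
  obtain ⟨g, rfl⟩ := hL
  refine ⟨KK g, fun u hu i j hij hj => ?_⟩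
  have hY := mem_language_iff_Y.1 hu
  have := desc hY [] [] (fun x hx => by simpa using mem_language_iff_Y.2 hx) i j (by simp) hij
    (by simpa using hj)
  rcases this with h | ⟨s₁, s₂, v₁, v₂, e1, e2, y1, y2, b1, b2⟩
  · simpa using h
  · exfalso
    rcases s₁ with _ | ⟨x, s₁⟩
    · cases y1
      simp at b1
    · rw [cons_append] at e1
      have h3 : s₁ ++ s₂ = [] := (List.cons.inj e1).2.symm
      have h4 : s₂ = [] := (List.append_eq_nil_iff.1 h3).2
      subst h4
      cases y2
      rw [append_nil] at e2
      rw [e2] at hj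
      simp at b2
      omega

end Q281.TL
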